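import Pool.Agent.H862.EC.LitAll
import Pool.Agent.H862.EC.Dsd

/-!
# A theorem of Littlewood type for every elliptic curve, and the discrepancy of the Frobenius angles

Let `E : y² = x³ + a x + b` be an elliptic curve over `ℚ` of conductor `N`, with or without complex multiplication,
and let `a_p` be its traces of Frobenius. Then

`∑_{p ≤ X} a_p log p = Ω₋ (X logloglog X)`,

without any hypothesis, and also `Ω₊ (X logloglog X)` if the Riemann hypothesis holds for the `L`-function of `E`.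
Hence, for every `s ≥ 1`, both discrepancies of the Frobenius angles at `s` consecutive primes satisfy

`D_K^[s] ≥ c (logloglog K)/√(K log K)` for infinitely many `K`,

with one constant `c = c(E) > 0` for all `s`. For all `K` the integrality of `a_p` gives the lower bound
`c/√(K log K)` only. So the factor `K^ε` of the conjecture `D_K^[s] = O(K^(ε - 1/2))` cannot be replaced by
`1/√(log K)`, for any curve and any `s`.
-/

set_option autoImplicit false

open MeasureTheory Filter Topology Set Complex Classical CongruenceSubgroup UpperHalfPlane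
open scoped MatrixGroups

namespace Pool.Agent.Results.MP_29be01_nt.LittlewoodOmega

/-- `#E(𝔽_p)`: the number of points of `y² = x³ + a x + b` modulo `p`, with the point at infinity. -/
noncomputable def numPoints (a b : ℤ) (p : ℕ) : ℕ :=
  Nat.card {q : ZMod p × ZMod p // q.2 ^ 2 = q.1 ^ 3 + (a : ZMod p) * q.1 + (b : ZMod p)} + 1

/-- `p` is a prime that does not divide `2 Δ`, where `Δ = -4 a³ - 27 b²`. -/
def Good (a b : ℤ) (p : ℕ) : Prop :=
  p.Prime ∧ ¬ ((p : ℤ) ∣ 2 * (-4 * a ^ 3 - 27 * b ^ 2))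

/-- The `n`-th Fourier coefficient of `f`. -/
noncomputable def coef {N : ℕ} (f : CuspForm (Gamma0 N : Subgroup (GL (Fin 2) ℝ)) 2) (n : ℕ) : ℂ :=
  (qExpansion 1 f).coeff n

/-- `f ∈ S_2(Γ₀(N))` is the newform of the elliptic curve `E : y² = x³ + a x + b` of conductor `N`: the
Fourier coefficients `c(n)` of `f` are real with `c(1) = 1`, they satisfy the Hecke relations
`c(mn) = c(m) c(n)` for coprime `m`, `n` and `c(p^(j+2)) = c(p) c(p^(j+1)) - p c(p^j)` (without the last
term if `p ∣ N`), `c(p) = a_p = p + 1 - #E(𝔽_p)` for all primes `p ∤ 2Δ`, `|c(p)| ≤ 2 √p` for all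
`p ∤ N` (Hasse), `c(p) = 0, 1, -1` for `p ∣ N`, and `f` is an eigenfunction of the involution of Fricke,
`f(-1/(Nz)) = w N z² f(z)` with `w = 1` or `w = -1`. -/
structure IsNewformOf (a b : ℤ) (N : ℕ) (f : CuspForm (Gamma0 N : Subgroup (GL (Fin 2) ℝ)) 2) :
    Prop where
  one : coef f 1 = 1
  real : ∀ n, (coef f n).im = 0
  mul : ∀ m n : ℕ, Nat.Coprime m n → coef f (m * n) = coef f m * coef f n
  pow : ∀ p j : ℕ, p.Prime → coef f (p ^ (j + 2)) = coef f p * coef f (p ^ (j + 1)) -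
      (if p ∣ N then 0 else (p : ℂ) * coef f (p ^ j))
  points : ∀ p : ℕ, Good a b p → coef f p = (p : ℂ) + 1 - (numPoints a b p : ℂ)
  good : ∀ p : ℕ, p.Prime → ¬ p ∣ N → ‖coef f p‖ ≤ 2 * Real.sqrt p
  bad : ∀ p : ℕ, p.Prime → p ∣ N → coef f p = 0 ∨ coef f p = 1 ∨ coef f p = -1
  fricke : ∃ w : ℂ, (w = 1 ∨ w = -1) ∧ ∀ z z' : ℍ, (z' : ℂ) = -1 / ((N : ℂ) * (z : ℂ)) →
    f z' = w * (N : ℂ) * (z : ℂ) ^ 2 * f z

section
variable {N : ℕ} (f : CuspForm (Gamma0 N : Subgroup (GL (Fin 2) ℝ)) 2)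

/-- `∑_{p ≤ X} a_p log p`, where `a_p = c(p)` -/
noncomputable def primeSum (X : ℝ) : ℝ :=
  ∑ p ∈ (Finset.Icc 1 ⌊X⌋₊).filter Nat.Prime, (coef f p).re * Real.log p

/-- the angle `x_k ∈ [0,1]` of the `k`-th prime `p` (`k = 0, 1, …`): `a_p = 2 √p cos (π x_k)` for `p ∤ N`, and
`x_k = 1/2` for `p ∣ N` -/
noncomputable def angle (k : ℕ) : ℝ :=
  if Nat.nth Nat.Prime k ∣ N then 1 / 2
  else Real.arccos ((coef f (Nat.nth Nat.Prime k)).re / (2 * Real.sqrt (Nat.nth Nat.Prime k))) / Real.pi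

/-- the Riemann hypothesis for the `L`-function of `f` (Mathlib): the zeros with `Re s > 0` have `Re s = 1` -/
def RiemannHyp [NeZero N] : Prop := ∀ s : ℂ, 0 < s.re → ModularForm.L (k := 2) (by norm_num) f s = 0 → s.re = 1

end

/-- `logloglog X` -/
noncomputable def log3 (X : ℝ) : ℝ := Real.log (Real.log (Real.log X))

/-- the number of the `k < K` such that `(x_k, …, x_(k+s-1))` is in the box `∏ [u_i, v_i)` -/
noncomputable def count (x : ℕ → ℝ) (s K : ℕ) (u v : Fin s → ℝ) : ℕ :=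
  ((Finset.range K).filter fun k => ∀ i : Fin s, u i ≤ x (k + i) ∧ x (k + i) < v i).card

/-- the measure of `[u, v)` for the measure of Sato and Tate `2 sin² (π t) dt` on `[0, 1]` -/
noncomputable def satoTate (u v : ℝ) : ℝ := ∫ t in u..v, 2 * Real.sin (Real.pi * t) ^ 2

/-- the extreme discrepancy `D_K^[s]` -/
noncomputable def disc (x : ℕ → ℝ) (s K : ℕ) : ℝ :=
  ⨆ q : {q : (Fin s → ℝ) × (Fin s → ℝ) // ∀ i, 0 ≤ q.1 i ∧ q.1 i ≤ q.2 i ∧ q.2 i ≤ 1},
    |(count x s K q.1.1 q.1.2 : ℝ) / K - ∏ i, satoTate (q.1.1 i) (q.1.2 i)|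

/-- the star discrepancy -/
noncomputable def starDisc (x : ℕ → ℝ) (s K : ℕ) : ℝ :=
  ⨆ w : {w : Fin s → ℝ // ∀ i, 0 ≤ w i ∧ w i ≤ 1}, |(count x s K 0 w.1 : ℝ) / K - ∏ i, satoTate 0 (w.1 i)|

/-! ### proofs -/

open Pool.Agent.H862.EC
open Pool.Agent.H862.EC.Dsc (F koksma ww l3 omega_disc)

theorem hecke {a b : ℤ} {N : ℕ} {f : CuspForm (Gamma0 N : Subgroup (GL (Fin 2) ℝ)) 2}
    (hf : IsNewformOf a b N f) : Pool.Agent.TH941.Hecke f where
  one := hf.one
  real := hf.real
  mul := hf.mul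
  pow := hf.pow
  good := hf.good
  bad := fun p hp h => by
    rcases hf.bad p hp h with h1 | h1 | h1
    · have h2 : ‖coef f p‖ ≤ 1 := by rw [h1]; simp
      exact h2
    · have h2 : ‖coef f p‖ ≤ 1 := by rw [h1]; simp
      exact h2
    · have h2 : ‖coef f p‖ ≤ 1 := by rw [h1]; simp
      exact h2

theorem func_eq {a b : ℤ} {N : ℕ} [NeZero N] {f : CuspForm (Gamma0 N : Subgroup (GL (Fin 2) ℝ)) 2}
    (hf : IsNewformOf a b N f) : ∃ ε : ℂ, ‖ε‖ = 1 ∧ ∀ s : ℂ, Pool.Agent.NH98.RT.Xi.xi f (-s) =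
      ε * Pool.Agent.NH98.RT.Xi.xi f s := by
  obtain ⟨w, hw, h⟩ := hf.fricke
  refine ⟨-w, ?_, Pool.Agent.NH98.RT.Xi.xi_fe f h⟩
  rcases hw with rfl | rfl <;> simp

theorem st_nonneg {u v : ℝ} (h : u ≤ v) : 0 ≤ satoTate u v :=
  intervalIntegral.integral_nonneg h fun t _ => by positivity

theorem st_one : satoTate 0 1 = 1 := by
  have h := Dsc.F_eq 1
  unfold F at h
  unfold satoTate
  rw [h]
  simp

theorem st_le {u v : ℝ} (h0 : 0 ≤ u) (_ : u ≤ v) (h1 : v ≤ 1) : satoTate u v ≤ 1 := by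
  have hi : ∀ a b : ℝ, IntervalIntegrable (fun t : ℝ => 2 * Real.sin (Real.pi * t) ^ 2) volume a b := fun a b =>
    (by fun_prop : Continuous fun t : ℝ => 2 * Real.sin (Real.pi * t) ^ 2).intervalIntegrable _ _
  have h2 : satoTate 0 u + satoTate u v + satoTate v 1 = satoTate 0 1 := by
    unfold satoTate
    rw [intervalIntegral.integral_add_adjacent_intervals (hi _ _) (hi _ _),
      intervalIntegral.integral_add_adjacent_intervals (hi _ _) (hi _ _)]
  rw [st_one] at h2
  have h3 := st_nonneg h0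
  have h4 := st_nonneg h1
  linarith

theorem term_le (x : ℕ → ℝ) (s K : ℕ) {u v : Fin s → ℝ} (h : ∀ i, 0 ≤ u i ∧ u i ≤ v i ∧ v i ≤ 1) :
    |(count x s K u v : ℝ) / K - ∏ i, satoTate (u i) (v i)| ≤ 1 := by
  have h1 : (count x s K u v : ℝ) / K ≤ 1 := by
    rcases Nat.eq_zero_or_pos K with hK | hK
    · rw [hK]; simp
    · rw [div_le_one (by exact_mod_cast hK)]
      have : count x s K u v ≤ K := by
        unfold count
        exact (Finset.card_filter_le _ _).trans (by rw [Finset.card_range])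
      exact_mod_cast this
  have h2 : 0 ≤ (count x s K u v : ℝ) / K := by positivity
  have h3 : 0 ≤ ∏ i, satoTate (u i) (v i) := Finset.prod_nonneg fun i _ => st_nonneg (h i).2.1
  have h4 : ∏ i, satoTate (u i) (v i) ≤ 1 :=
    Finset.prod_le_one (fun i _ => st_nonneg (h i).2.1) fun i _ => st_le (h i).1 (h i).2.1 (h i).2.2
  rw [abs_le]
  constructor <;> linarith

theorem star_ge (x : ℕ → ℝ) (s K : ℕ) {w : Fin s → ℝ} (h : ∀ i, 0 ≤ w i ∧ w i ≤ 1) :
    |(count x s K 0 w : ℝ) / K - ∏ i, satoTate 0 (w i)| ≤ starDisc x s K := by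
  unfold starDisc
  refine le_ciSup (f := fun w : {w : Fin s → ℝ // ∀ i, 0 ≤ w i ∧ w i ≤ 1} =>
    |(count x s K 0 w.1 : ℝ) / K - ∏ i, satoTate 0 (w.1 i)|) ⟨1, ?_⟩ ⟨w, h⟩
  rintro _ ⟨v, rfl⟩
  exact term_le x s K (u := 0) fun i => ⟨le_rfl, (v.2 i).1, (v.2 i).2⟩

theorem star_le_disc (x : ℕ → ℝ) (s K : ℕ) : starDisc x s K ≤ disc x s K := by
  unfold starDisc
  have : Nonempty {w : Fin s → ℝ // ∀ i, 0 ≤ w i ∧ w i ≤ 1} := ⟨⟨fun _ => 0, fun _ => ⟨le_rfl, zero_le_one⟩⟩⟩
  refine ciSup_le fun w => ?_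
  unfold disc
  refine le_ciSup (f := fun q : {q : (Fin s → ℝ) × (Fin s → ℝ) // ∀ i, 0 ≤ q.1 i ∧ q.1 i ≤ q.2 i ∧ q.2 i ≤ 1} =>
    |(count x s K q.1.1 q.1.2 : ℝ) / K - ∏ i, satoTate (q.1.1 i) (q.1.2 i)|) ⟨1, ?_⟩
    ⟨(0, w.1), fun i => ⟨le_rfl, (w.2 i).1, (w.2 i).2⟩⟩
  rintro _ ⟨v, rfl⟩
  exact term_le x s K v.2

/-- from `s` consecutive angles to one angle -/
theorem one_angle {x : ℕ → ℝ} (hx : ∀ k, x k ∈ Set.Icc (0 : ℝ) 1) {Z : Finset ℕ} (hZ : ∀ k, k ∉ Z → x k < 1)
    {s : ℕ} (hs : 1 ≤ s) (K : ℕ) (w : ℝ) (hw : w ∈ Set.Icc (0 : ℝ) 1) :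
    |(((Finset.range K).filter (fun k => x k < w)).card : ℝ) - K * F w| ≤
      K * starDisc x s K + (Z.card * s : ℕ) := by
  obtain ⟨r, rfl⟩ : ∃ r, s = r + 1 := ⟨s - 1, by omega⟩
  obtain ⟨v, hv⟩ : ∃ v : Fin (r + 1) → ℝ, v = Fin.cons w fun _ => 1 := ⟨_, rfl⟩
  have hv0 : v 0 = w := by rw [hv]; rfl
  have hvs : ∀ i : Fin r, v i.succ = 1 := by intro i; rw [hv]; rfl
  have hv1 : ∀ i, 0 ≤ v i ∧ v i ≤ 1 := by
    intro i
    refine Fin.cases ?_ (fun j => ?_) i
    · rw [hv0]; exact hw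
    · rw [hvs]; exact ⟨zero_le_one, le_rfl⟩
  have h1 := star_ge x (r + 1) K hv1
  have h2 : ∏ i, satoTate 0 (v i) = F w := by
    rw [Fin.prod_univ_succ, hv0]
    simp only [hvs, st_one, Finset.prod_const_one, mul_one]
    rfl
  rw [h2] at h1
  -- the counts
  have h3 : count x (r + 1) K 0 v ≤ ((Finset.range K).filter (fun k => x k < w)).card := by
    unfold count
    refine Finset.card_le_card fun k hk => ?_
    rw [Finset.mem_filter] at hk ⊢
    have h4 := (hk.2 0).2
    rw [hv0] at h4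
    exact ⟨hk.1, by simpa using h4⟩
  have h4 : ((Finset.range K).filter (fun k => x k < w)).card ≤ count x (r + 1) K 0 v + Z.card * (r + 1) := by
    have h5 : (Finset.range K).filter (fun k => x k < w) ⊆
        ((Finset.range K).filter fun k => ∀ i : Fin (r + 1), (0 : Fin (r + 1) → ℝ) i ≤ x (k + i) ∧ x (k + i) < v i) ∪
          (Z ×ˢ Finset.range (r + 1)).image (fun q => q.1 - q.2) := by
      intro k hk
      rw [Finset.mem_filter] at hk
      rw [Finset.mem_union]
      by_cases h6 : ∀ i : Fin (r + 1), x (k + i) < v i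
      · left
        rw [Finset.mem_filter]
        exact ⟨hk.1, fun i => ⟨(hx _).1, h6 i⟩⟩
      · right
        push Not at h6
        obtain ⟨i, hi⟩ := h6
        rw [Finset.mem_image]
        refine ⟨(k + i, (i : ℕ)), ?_, by simp⟩
        rw [Finset.mem_product, Finset.mem_range]
        refine ⟨?_, i.2⟩
        by_contra h7
        have h8 := hZ _ h7
        have h9 : v i = w ∨ v i = 1 := by
          refine Fin.cases ?_ (fun j => ?_) i
          · left; exact hv0
          · right; exact hvs j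
        have h10 : i = 0 ∨ v i = 1 := by
          refine Fin.cases ?_ (fun j => ?_) i
          · left; rfl
          · right; exact hvs j
        rcases h10 with h10 | h10
        · rw [h10, hv0] at hi
          have h11 : x (k + ((0 : Fin (r + 1)) : ℕ)) = x k := by simp
          rw [h11] at hi
          linarith [hk.2]
        · rw [h10] at hi
          linarith
    refine (Finset.card_le_card h5).trans ((Finset.card_union_le _ _).trans ?_)
    refine Nat.add_le_add_left (Finset.card_image_le.trans ?_) _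
    rw [Finset.card_product, Finset.card_range]
  have h5 : |(count x (r + 1) K 0 v : ℝ) - K * F w| ≤ K * starDisc x (r + 1) K := by
    rcases Nat.eq_zero_or_pos K with hK | hK
    · subst hK
      unfold count
      simp
    · have hK0 : (0 : ℝ) < K := by exact_mod_cast hK
      have e : (count x (r + 1) K 0 v : ℝ) - K * F w = K * ((count x (r + 1) K 0 v : ℝ) / K - F w) := by
        field_simp
      rw [e, abs_mul, abs_of_pos hK0]
      exact mul_le_mul_of_nonneg_left h1 hK0.le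
  have h6 : (count x (r + 1) K 0 v : ℝ) ≤ ((Finset.range K).filter (fun k => x k < w)).card := by exact_mod_cast h3
  have h7 : (((Finset.range K).filter (fun k => x k < w)).card : ℝ) ≤
      count x (r + 1) K 0 v + (Z.card * (r + 1) : ℕ) := by exact_mod_cast h4
  have h8 := abs_le.1 h5
  rw [abs_le]
  constructor <;> linarith

section
variable {a b : ℤ} {N : ℕ} [NeZero N] {f : CuspForm (Gamma0 N : Subgroup (GL (Fin 2) ℝ)) 2}

omit [NeZero N] in
theorem angle_mem (f : CuspForm (Gamma0 N : Subgroup (GL (Fin 2) ℝ)) 2) (k : ℕ) : angle f k ∈ Set.Icc (0 : ℝ) 1 := by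
  have hpi := Real.pi_pos
  unfold angle
  split_ifs
  · constructor <;> norm_num
  · refine ⟨div_nonneg (Real.arccos_nonneg _) hpi.le, ?_⟩
    rw [div_le_one hpi]
    exact Real.arccos_le_pi _

omit [NeZero N] in
theorem cos_angle (hf : IsNewformOf a b N f) {k : ℕ} (h : ¬ Nat.nth Nat.Prime k ∣ N) :
    Real.cos (Real.pi * angle f k) =
      (coef f (Nat.nth Nat.Prime k)).re / (2 * Real.sqrt (Nat.nth Nat.Prime k)) := by
  have hp := Nat.prime_nth_prime k
  have hp0 : (0 : ℝ) < Nat.nth Nat.Prime k := by exact_mod_cast hp.pos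
  have h1 := hf.good _ hp h
  have h2 : |(coef f (Nat.nth Nat.Prime k)).re| ≤ 2 * Real.sqrt (Nat.nth Nat.Prime k) :=
    (Complex.abs_re_le_norm _).trans h1
  have hs : 0 < 2 * Real.sqrt (Nat.nth Nat.Prime k) := by
    have := Real.sqrt_pos.2 hp0
    linarith
  unfold angle
  rw [if_neg h, mul_div_cancel₀ _ Real.pi_ne_zero]
  have h3 := abs_le.1 h2
  refine Real.cos_arccos ?_ ?_
  · rw [le_div_iff₀ hs]; linarith
  · rw [div_le_one hs]; linarith

omit [NeZero N] in
/-- the finitely many angles `1` -/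
theorem angle_lt (hΔ : 4 * a ^ 3 + 27 * b ^ 2 ≠ 0) (hf : IsNewformOf a b N f) :
    ∃ Z : Finset ℕ, ∀ k, k ∉ Z → angle f k < 1 := by
  obtain ⟨M, hM⟩ : ∃ M : ℤ, M = 2 * (-4 * a ^ 3 - 27 * b ^ 2) := ⟨_, rfl⟩
  have hM0 : M ≠ 0 := by
    rw [hM]
    intro h
    apply hΔ
    linarith
  refine ⟨Finset.range (M.natAbs + 1), fun k hk => ?_⟩
  rw [Finset.mem_range, not_lt] at hk
  have hp := Nat.prime_nth_prime k
  obtain ⟨p, hpk⟩ : ∃ p : ℕ, p = Nat.nth Nat.Prime k := ⟨_, rfl⟩
  have hkp : k ≤ p := by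
    rw [hpk]
    exact Nat.le_nth fun h => absurd h Nat.infinite_setOfPred_prime
  rw [← hpk] at hp
  have hgood : Good a b p := by
    refine ⟨hp, fun h => ?_⟩
    rw [← hM] at h
    have h1 := Int.natAbs_dvd_natAbs.2 h
    rw [Int.natAbs_natCast] at h1
    have h2 := Nat.le_of_dvd (Int.natAbs_pos.2 hM0) h1
    omega
  have hpi := Real.pi_pos
  by_contra hcon
  push Not at hcon
  have h1 : angle f k = 1 := le_antisymm (angle_mem f k).2 hcon
  have h2 : ¬ p ∣ N := by
    intro h2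
    unfold angle at h1
    rw [← hpk, if_pos h2] at h1
    norm_num at h1
  have h3 := cos_angle hf (k := k) (by rw [← hpk]; exact h2)
  rw [h1, mul_one, Real.cos_pi, ← hpk, hf.points p hgood] at h3
  have hp0 : (0 : ℝ) < p := by exact_mod_cast hp.pos
  have hs : 0 < Real.sqrt p := Real.sqrt_pos.2 hp0
  have e : ((p : ℂ) + 1 - (numPoints a b p : ℂ)).re = (((p : ℤ) + 1 - (numPoints a b p : ℤ) : ℤ) : ℝ) := by
    simp
  rw [e, eq_div_iff (by positivity)] at h3
  obtain ⟨m, hm⟩ : ∃ m : ℤ, m = (p : ℤ) + 1 - (numPoints a b p : ℤ) := ⟨_, rfl⟩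
  rw [← hm] at h3
  have h4 : (m : ℝ) ^ 2 = 4 * p := by
    rw [← h3]
    have := Real.sq_sqrt hp0.le
    nlinarith
  have h5 : m ^ 2 = 4 * (p : ℤ) := by exact_mod_cast h4
  have h6 : (2 : ℤ) ∣ m := by
    have : (2 : ℤ) ∣ m ^ 2 := ⟨2 * p, by rw [h5]; ring⟩
    exact Int.prime_two.dvd_of_dvd_pow this
  obtain ⟨n, hn⟩ := h6
  have h7 : n ^ 2 = (p : ℤ) := by
    rw [hn] at h5
    linarith
  have h8 : (p : ℤ) = ((n.natAbs * n.natAbs : ℕ) : ℤ) := by
    push_cast
    rw [← h7, ← sq, sq_abs]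
  have h9 : p = n.natAbs * n.natAbs := by exact_mod_cast h8
  rw [h9] at hp
  have h10 : n.natAbs ≠ 1 := by
    intro h
    rw [h] at hp
    exact Nat.not_prime_one hp
  exact Nat.not_prime_mul h10 h10 hp

end

/-- **Theorem.** Let `E : y² = x³ + a x + b` be an elliptic curve over `ℚ`, `f` its newform, of level `N`.
(1) There is a `c > 0` such that `∑_{p ≤ X} a_p log p ≤ -c X logloglog X` for arbitrarily large `X`.
(2) If the Riemann hypothesis holds for the `L`-function of `E`, there is a `c > 0` such that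
`∑_{p ≤ X} a_p log p ≥ c X logloglog X` for arbitrarily large `X`.
(3) There is a `c > 0` such that for every `s ≥ 1` there are infinitely many `K` for which the star discrepancy and
the extreme discrepancy of the Frobenius angles at `s` consecutive primes are
`≥ c (logloglog K)/√(K log K)`. -/
theorem result (a b : ℤ) (hΔ : 4 * a ^ 3 + 27 * b ^ 2 ≠ 0) (N : ℕ) [NeZero N]
    (f : CuspForm (Gamma0 N : Subgroup (GL (Fin 2) ℝ)) 2) (hf : IsNewformOf a b N f) :
    (∃ c : ℝ, 0 < c ∧ ∃ᶠ X : ℝ in atTop, primeSum f X ≤ -(c * (X * log3 X))) ∧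
    (RiemannHyp f → ∃ c : ℝ, 0 < c ∧ ∃ᶠ X : ℝ in atTop, c * (X * log3 X) ≤ primeSum f X) ∧
    ∃ c : ℝ, 0 < c ∧ ∀ s : ℕ, 1 ≤ s → ∃ᶠ K : ℕ in atTop,
      c * (log3 K / Real.sqrt (K * Real.log K)) ≤ starDisc (angle f) s K ∧
        starDisc (angle f) s K ≤ disc (angle f) s K := by
  obtain ⟨ε, hε, hfe⟩ := func_eq hf
  obtain ⟨c, hc, h1⟩ := lit_primes (hecke hf) hε hfe
  have e1 : ∀ X : ℝ, Ap f X = primeSum f X := fun X => rfl
  refine ⟨⟨c, hc, h1⟩, fun hRH => ?_, ?_⟩
  · exact lit_primes_line (hecke hf) hε hfe ((rh_iff (hecke hf) hfe).1 hRH)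
  · obtain ⟨Z, hZ⟩ := angle_lt hΔ hf
    have hA : ∀ t : ℝ, 1 ≤ t → |primeSum f t - ∑ k ∈ Finset.range (Nat.primeCounting ⌊t⌋₊), ww k *
        (2 * Real.cos (Real.pi * angle f k))| ≤ ∑ p ∈ N.primeFactors, Real.log p := by
      intro t _
      unfold primeSum
      rw [Dsc.sum_primes (fun p => (coef f p).re * Real.log p), ← Finset.sum_sub_distrib]
      have h3 : ∀ k, |(coef f (Nat.nth Nat.Prime k)).re * Real.log (Nat.nth Nat.Prime k) -
          ww k * (2 * Real.cos (Real.pi * angle f k))| ≤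
          (fun p : ℕ => if p ∣ N then Real.log p else 0) (Nat.nth Nat.Prime k) := by
        intro k
        have hp := Nat.prime_nth_prime k
        have hp1 : (1 : ℝ) ≤ Nat.nth Nat.Prime k := by exact_mod_cast hp.one_le
        have hlog := Real.log_nonneg hp1
        by_cases h : Nat.nth Nat.Prime k ∣ N
        · have h4 : angle f k = 1 / 2 := by
            unfold angle
            rw [if_pos h]
          have h5 : |(coef f (Nat.nth Nat.Prime k)).re| ≤ 1 :=
            (Complex.abs_re_le_norm _).trans ((hecke hf).bad _ hp h)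
          rw [h4, show Real.pi * (1 / 2) = Real.pi / 2 by ring, Real.cos_pi_div_two, mul_zero, mul_zero, sub_zero,
            abs_mul, abs_of_nonneg hlog]
          simp only [h, if_true]
          nlinarith
        · have h5 : 0 < Real.sqrt (Nat.nth Nat.Prime k) := Real.sqrt_pos.2 (by linarith)
          rw [cos_angle hf h]
          simp only [h, if_false]
          unfold ww
          have e : Real.sqrt (Nat.nth Nat.Prime k : ℝ) * Real.log (Nat.nth Nat.Prime k : ℝ) *
              (2 * ((coef f (Nat.nth Nat.Prime k)).re / (2 * Real.sqrt (Nat.nth Nat.Prime k)))) =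
              (coef f (Nat.nth Nat.Prime k)).re * Real.log (Nat.nth Nat.Prime k) := by
            field_simp
          rw [e, sub_self, abs_zero]
      refine (Finset.abs_sum_le_sum_abs _ _).trans ((Finset.sum_le_sum fun k _ => h3 k).trans ?_)
      rw [← Dsc.sum_primes (fun p : ℕ => if p ∣ N then Real.log p else 0), ← Finset.sum_filter]
      refine Finset.sum_le_sum_of_subset_of_nonneg (fun p hp => ?_) fun p _ _ => Real.log_natCast_nonneg p
      rw [Finset.mem_filter, Finset.mem_filter] at hp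
      rw [Nat.mem_primeFactors]
      exact ⟨hp.1.2, hp.2, NeZero.ne N⟩
    have hfr : ∃ᶠ t : ℝ in atTop, c * (t * l3 t) ≤ |primeSum f t| := by
      refine h1.mono fun t ht => ?_
      have h4 := neg_abs_le (primeSum f t)
      have h5 : Ap f t = primeSum f t := rfl
      rw [h5] at ht
      have h6 : l3 t = Real.log (Real.log (Real.log t)) := rfl
      rw [h6]
      linarith
    obtain ⟨c', hc', h2⟩ := omega_disc (angle_mem f) hc hA hfr
    refine ⟨c', hc', fun s hs => ?_⟩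
    have h3 := h2 (fun K => starDisc (angle f) s K) ((Z.card * s : ℕ) : ℝ) fun K w hw =>
      one_angle (angle_mem f) hZ hs K w hw
    exact h3.mono fun K hK => ⟨hK, star_le_disc _ _ _⟩

end Pool.Agent.Results.MP_29be01_nt.LittlewoodOmega
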