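import Pool.Agent.H414.LT.Che
import Pool.Agent.H414.LT.Uch
import Pool.Agent.H414.LT.Eng
import Pool.Agent.H414.CA.Mean
import Pool.Agent.H414.CA.Sel
import Pool.Agent.H414.CA.Rh
import Pool.Agent.H414.CA.Lim
import Pool.Agent.H414.CA.Den
import Pool.Agent.H414.CA.T6
import Pool.Agent.H414.CA.One
import Pool.Agent.H414.CA.Eq

/-!
# What the Riemann hypothesis for the symmetric powers says about the angles at consecutive primes

Let `a p`, `p` prime, be integers with `a p ^ 2 < 4 p`, `a p_k = 2 √p_k cos (π x_k)` for the `k`-th prime `p_k`, and let `U_n`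
be the character of `Sym^n`. The Riemann hypothesis for all symmetric power `L`-functions of an elliptic curve gives

`∑_{p ≤ x} U_n(a p / √p) = O_ε((n + 1) x ^ (1 / 2 + ε))` for all `n ≥ 1` and `x`

(`IsRH (fun _ _ => 1) a`; `IsRH c a`: the same with arbitrary twists `c i p`). We determine what these bounds imply for the
joint distribution of the angles `x_k, x_(k+1), …` at consecutive primes: only that each of them has the Sato-Tate law.

(1) If `IsRH (fun _ _ => 1) a`, then the `x_k` have the Sato-Tate law `ST`. So if the tuples `(x_k, …, x_(k+s-1))` have limit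
  laws, these belong to a stationary process with the marginal law `ST`.
(2) Conversely, for *every* stationary process `X` whose marginal law is `ST` and all twists `|c i p| ≤ 1` there are integers
  `a p` with `a p ^ 2 < 4 p` and `IsRH c a`, for which `(x_k, …, x_(k+s-1))` has the law of `(X 0, …, X (s-1))`, for all `s`.
(3) For example (`X i = X 0`) there are such integers with `(1 / K) ∑_{k < K} |x_k - x_(k+1)| → 0`: the angles at
  consecutive primes are asymptotically equal. Then the proportion of the `k` with `(x_k, x_(k+1)) ∈ [0, 1/2) × [1/2, 1]`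
  tends to `0`, and not to `1/4`, the product measure of this set.

Proof. Divide the indices `k` into blocks of lengths which slowly tend to infinity. For each block choose a point `ω` of
the probability space of the process and round the angles `X l ω` to the angles of integers. The points `ω` are chosen
one after the other, so that a weighted sum of the squares of all the (countably many) errors remains as small as
for independent random choices.
-/

set_option autoImplicit false

namespace Pool.Agent.Results.MP_29be01_nt.StationaryLaws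

open MeasureTheory Finset Filter Topology
open Pool.Agent.H414.LT (IsSystem)
open Pool.Agent.H414.CA

/-- ALL stationary processes with Sato-Tate marginals occur as the joint laws of the angles at consecutive primes, for
systems of integers with the bounds of the Riemann hypothesis for all symmetric powers and with arbitrary twists. -/
theorem result :
    (∀ a : ℕ → ℤ, IsSystem a → IsRH (fun _ _ => 1) a → ∀ f : ℝ → ℝ, Continuous f →
      Tendsto (fun K : ℕ => (∑ k ∈ range K, f (angle a k)) / K) atTop (𝓝 (∫ x, f x ∂ST))) ∧
    (∀ (Ω : Type) [MeasurableSpace Ω] (μ : Measure Ω) (X : ℕ → Ω → ℝ), IsProc μ X →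
      ∀ c : ℕ → ℕ → ℂ, (∀ i p, ‖c i p‖ ≤ 1) → ∃ a : ℕ → ℤ, IsSystem a ∧ IsRH c a ∧
        ∀ (s : ℕ) (f : (Fin s → ℝ) → ℝ), Continuous f →
          Tendsto (fun K : ℕ => (∑ k ∈ range K, f (fun j => angle a (k + j))) / K) atTop
            (𝓝 (∫ w, f (fun j => X j w) ∂μ))) ∧
    ∀ c : ℕ → ℕ → ℂ, (∀ i p, ‖c i p‖ ≤ 1) → ∃ a : ℕ → ℤ, IsSystem a ∧ IsRH c a ∧
      Tendsto (fun K : ℕ => (∑ k ∈ range K, |angle a k - angle a (k + 1)|) / K) atTop (𝓝 0) ∧
      Tendsto (fun K : ℕ => (((range K).filter fun k =>
        angle a k < 1 / 2 ∧ 1 / 2 ≤ angle a (k + 1)).card : ℝ) / K) atTop (𝓝 0) := by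
  have hMEAN : S_MEAN := mean Pool.Agent.H414.LT.us Pool.Agent.H414.LT.ub Pool.Agent.H414.LT.ul
  have hT6 : S_T6 := t6 (sel Pool.Agent.H414.LT.eng hMEAN) (rh hMEAN) lim den
  exact ⟨one Pool.Agent.H414.LT.che Pool.Agent.H414.LT.us, hT6, eqa hT6⟩

end Pool.Agent.Results.MP_29be01_nt.StationaryLaws
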